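import Pool.Agent.Helper15.UL.GoalsE

/-!
# MP_57a173_lc, packet PSM: `Psi` is measurable
-/

noncomputable section

namespace UL.PkPSM

open MeasureTheory

theorem bit {X : Type} [MeasurableSpace X] {f : X → ℕ → Bool} (hf : Measurable f) (k : ℕ) :
    Measurable fun q => f q k = true := by
  have h1 : Measurable fun q => f q k := (measurable_pi_apply k).comp hf
  have h2 : MeasurableSet ((fun q => f q k) ⁻¹' {true}) := h1 (measurableSet_singleton true)
  exact measurableSet_setOfPred.1 h2

theorem bit' {X : Type} [MeasurableSpace X] {f : X → ℕ → Bool} (hf : Measurable f) (k : ℕ)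
    (b : Bool) : Measurable fun q => b = f q k := by
  have h1 : Measurable fun q => f q k := (measurable_pi_apply k).comp hf
  have h2 : MeasurableSet ((fun q => f q k) ⁻¹' {b}) := h1 (measurableSet_singleton b)
  have h3 : (fun q => b = f q k) = fun q => f q k = b := funext fun q => propext eq_comm
  rw [h3]
  exact measurableSet_setOfPred.1 h2

theorem pre {X : Type} [MeasurableSpace X] {f : X → ℕ → Bool} (hf : Measurable f) (t : Str) :
    Measurable fun q => Pre t (f q) :=
  Measurable.forall fun i => Measurable.forall fun h => bit' hf i _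

theorem psi_iff (x a p v : ℕ → Bool) : Psi x a p v ↔
    (∀ n, ∃ m, v (Nat.pair n m) = true ∧ ∀ m', v (Nat.pair n m') = true → m' = m) ∧
    ∀ (s : List ℕ) (t u : Str), t.length = s.length → u.length = s.length → Pre t x → Pre u a →
      (∀ (i : ℕ) (h : i < s.length), v (Nat.pair i s[i]) = true) →
      p (Encodable.encode (t, u, s)) = true := by
  constructor
  · rintro ⟨w, h1, h2⟩
    refine ⟨fun n => ⟨w n, (h1 n _).2 rfl, fun m' hm' => ((h1 n m').1 hm').symm⟩, ?_⟩
    intro s t u ht hu hx ha hs
    have e1 : t = res x s.length := by rw [← ht]; exact pre_iff.1 hx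
    have e2 : u = res a s.length := by rw [← hu]; exact pre_iff.1 ha
    have e3 : s = (List.range s.length).map w := by
      apply List.ext_getElem
      · simp
      · intro i hi hi'
        rw [List.getElem_map, List.getElem_range]
        exact ((h1 i _).1 (hs i hi)).symm
    have h3 := h2 s.length
    rw [← e1, ← e2, ← e3] at h3
    exact h3
  · rintro ⟨h1, h2⟩
    choose w hw hw' using h1
    refine ⟨w, fun n m => ⟨fun h => (hw' n m h).symm, fun h => h ▸ hw n⟩, fun n => ?_⟩
    refine h2 ((List.range n).map w) (res x n) (res a n) (by simp) (by simp) (pre_res _ _)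
      (pre_res _ _) fun i hi => ?_
    rw [List.getElem_map, List.getElem_range]
    exact hw i

theorem thm : UL.G_PSM := by
  have h1 : Measurable fun q : (ℕ → Bool) × (ℕ → Bool) × (ℕ → Bool) × (ℕ → Bool) => q.1 :=
    measurable_fst
  have h2 : Measurable fun q : (ℕ → Bool) × (ℕ → Bool) × (ℕ → Bool) × (ℕ → Bool) => q.2.1 :=
    measurable_fst.comp measurable_snd
  have h3 : Measurable fun q : (ℕ → Bool) × (ℕ → Bool) × (ℕ → Bool) × (ℕ → Bool) => q.2.2.1 :=
    measurable_fst.comp (measurable_snd.comp measurable_snd)
  have h4 : Measurable fun q : (ℕ → Bool) × (ℕ → Bool) × (ℕ → Bool) × (ℕ → Bool) => q.2.2.2 :=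
    measurable_snd.comp (measurable_snd.comp measurable_snd)
  unfold UL.G_PSM
  simp only [psi_iff]
  rw [measurableSet_setOfPred]
  refine Measurable.and ?_ ?_
  · exact Measurable.forall fun n => Measurable.exists fun m => Measurable.and (bit h4 _)
      (Measurable.forall fun m' => Measurable.imp (bit h4 _) measurable_const)
  · exact Measurable.forall fun s => Measurable.forall fun t => Measurable.forall fun u =>
      Measurable.imp measurable_const (Measurable.imp measurable_const
        (Measurable.imp (pre h1 t) (Measurable.imp (pre h2 u)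
          (Measurable.imp (Measurable.forall fun i => Measurable.forall fun h => bit h4 _)
            (bit h3 _)))))

end UL.PkPSM
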